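import Pool.Agent.PRT.StmtsB

/-!
# Row MSP of squad PRT: integrals of periodic functions
-/

set_option autoImplicit false

namespace Pool.Agent.PRT.H72

open Set MeasureTheory Module Pool.Agent.PRT
open scoped ContDiff

/-- the standard basis of the plane -/
noncomputable def bs : Basis (Fin 2) ℝ E := Basis.finTwoProd ℝ

/-- the half open square -/
def Q0 : Set E := Ico (0 : ℝ) 1 ×ˢ Ico (0 : ℝ) 1

theorem fd_eq : ZSpan.fundamentalDomain bs = Q0 := by
  ext z
  rw [ZSpan.mem_fundamentalDomain, Q0, mem_prod]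
  have h0 : bs.repr z 0 = z.1 := by
    show (Basis.finTwoProd ℝ).repr z 0 = z.1
    simp
  have h1 : bs.repr z 1 = z.2 := by
    show (Basis.finTwoProd ℝ).repr z 1 = z.2
    simp
  rw [Fin.forall_fin_two, h0, h1]

/-- the lattice -/
noncomputable abbrev La : AddSubgroup E := (Submodule.span ℤ (Set.range bs)).toAddSubgroup

theorem mem_La {z : E} (hz : z ∈ La) : ∃ a b : ℤ, z = iv a b := by
  have h := (Basis.mem_span_iff_repr_mem ℤ bs z).1 hz
  obtain ⟨a, ha⟩ := h 0
  obtain ⟨b, hb⟩ := h 1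
  have h0 : bs.repr z 0 = z.1 := by
    show (Basis.finTwoProd ℝ).repr z 0 = z.1
    simp
  have h1 : bs.repr z 1 = z.2 := by
    show (Basis.finTwoProd ℝ).repr z 1 = z.2
    simp
  refine ⟨a, b, ?_⟩
  rw [h0] at ha
  rw [h1] at hb
  ext
  · show z.1 = (a : ℝ)
    rw [← ha]; simp
  · show z.2 = (b : ℝ)
    rw [← hb]; simp

instance : Countable La := by
  have hinj : Function.Injective (fun z : La => (⌊(z : E).1⌋, ⌊(z : E).2⌋)) := by
    intro x y h
    obtain ⟨a, b, hx⟩ := mem_La x.2
    obtain ⟨a', b', hy⟩ := mem_La y.2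
    have h1 : ⌊(x : E).1⌋ = ⌊(y : E).1⌋ := congrArg Prod.fst h
    have h2 : ⌊(x : E).2⌋ = ⌊(y : E).2⌋ := congrArg Prod.snd h
    rw [hx, hy] at h1 h2
    simp only [iv, Int.floor_intCast] at h1 h2
    apply Subtype.ext
    rw [hx, hy, h1, h2]
  exact hinj.countable

theorem fdom : IsAddFundamentalDomain La Q0 (volume : Measure E) := by
  rw [← fd_eq]
  exact ZSpan.isAddFundamentalDomain' bs volume

theorem Q_ae : (Q : Set E) =ᵐ[volume] Q0 := by
  unfold Q Q0
  rw [Measure.volume_eq_prod]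
  exact Measure.set_prod_ae_eq Ico_ae_eq_Icc.symm Ico_ae_eq_Icc.symm

theorem msp : MspStmt := by
  intro g v C hg ψ hψ hper
  obtain ⟨G, hG, hGg, hgG⟩ := hg.inv
  have hdiff : ∀ z, HasFDerivAt g (fderiv ℝ g z) z := fun z =>
    ((hg.sm.differentiable (by simp)) z).hasFDerivAt
  have hinj : Function.Injective g := Function.LeftInverse.injective hGg
  let f : E ≃ E := ⟨g, G, hGg, hgG⟩
  have hvol : ∀ s : Set E, MeasurableSet s → volume (g '' s) = volume s := by
    intro s hs
    rw [← lintegral_abs_det_fderiv_eq_addHaar_image volume hs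
      (fun x _ => (hdiff x).hasFDerivWithinAt) hinj.injOn]
    simp [hg.det]
  have hq : Measure.QuasiMeasurePreserving f.symm (volume : Measure E) volume := by
    have hfm : Measurable (f.symm : E → E) := hG.continuous.measurable
    refine ⟨hfm, ?_⟩
    refine Measure.AbsolutelyContinuous.mk (fun s hs h0 => ?_)
    rw [Measure.map_apply hfm hs]
    have : (f.symm ⁻¹' s) = g '' s := (f.image_eq_preimage_symm s).symm
    rw [this, hvol s hs, h0]
  have hfd : IsAddFundamentalDomain La (f '' Q0) (volume : Measure E) := by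
    refine fdom.image_of_equiv f hq (Equiv.refl _) (fun l z => ?_)
    obtain ⟨a, b, hab⟩ := mem_La l.2
    show g ((l : E) + z) = (l : E) + g z
    rw [hab, add_comm, hg.eqv a b z, add_comm]
  have hinv : ∀ (l : La) (z : E), ψ (l +ᵥ z) = ψ z := by
    intro l z
    obtain ⟨a, b, hab⟩ := mem_La l.2
    show ψ ((l : E) + z) = ψ z
    rw [hab, add_comm, hper a b z]
  have hmQ0 : MeasurableSet Q0 := measurableSet_Ico.prod measurableSet_Ico
  calc ∫ z in Q, ψ (g z) = ∫ z in Q0, ψ (g z) := setIntegral_congr_set Q_ae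
    _ = ∫ z in Q0, |(fderiv ℝ g z).det| • ψ (g z) := by
        refine setIntegral_congr_fun hmQ0 (fun z _ => ?_)
        simp [hg.det]
    _ = ∫ z in g '' Q0, ψ z :=
        (integral_image_eq_integral_abs_det_fderiv_smul volume hmQ0
          (fun x _ => (hdiff x).hasFDerivWithinAt) hinj.injOn ψ).symm
    _ = ∫ z in Q0, ψ z := hfd.setIntegral_eq fdom hinv
    _ = ∫ z in Q, ψ z := (setIntegral_congr_set Q_ae).symm

end Pool.Agent.PRT.H72
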